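import Pool.Agent.V1120.Bandlow.AxiomR

/-!
# MP_1c9258_gt: a positive answer from reflection of stationary families of countable sets

If stationary families of countable sets reflect to `ω`-closed sets of size at most continuum, then
Q1 has a positive answer.  The hypothesis holds under CH and Fleissner's Axiom R, in particular after
Levy-collapsing a supercompact cardinal to `ω₂`.
-/

set_option autoImplicit false

namespace Pool.Agent.Results.MP_1c9258_gt.PositiveUnderReflection

open Set

/-- The positive answer to Q1 (the frozen statement S12847). -/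
def PositiveAnswer : Prop :=
  ∀ (X : Type) [TopologicalSpace X] [CompactSpace X] [T2Space X],
    (∀ A : Set X, Cardinal.mk A ≤ Cardinal.continuum →
      ∃ (Γ : Type) (f : ↥(closure A) → (Γ → ℝ)),
        Topology.IsEmbedding f ∧ ∀ x, (Function.support (f x)).Countable) →
    ∃ (Γ : Type) (f : X → (Γ → ℝ)),
      Topology.IsEmbedding f ∧ ∀ x, (Function.support (f x)).Countable

/-- `T` is stationary in `[N]^{≤ω}`: every operation `h` from finite sets to countable sets has a
countable `M ∈ T`, `M ⊆ N`, which is closed under `h` inside `N`. -/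
def StationaryIn {Z : Type} (N : Set Z) (T : Set (Set Z)) : Prop :=
  ∀ h : Finset Z → Set Z, (∀ s, (h s).Countable) →
    ∃ M ∈ T, M.Countable ∧ M ⊆ N ∧ ∀ s : Finset Z, ↑s ⊆ M → h s ∩ N ⊆ M

/-- Reflection principle: every stationary family `T` of countable subsets of `Z` reflects to a set
`N` of size at most continuum which is closed under a prescribed operation `g` on sequences (with
countable values). -/
def Reflection : Prop :=
  ∀ (Z : Type) (T : Set (Set Z)), StationaryIn univ T →
    ∀ g : (ℕ → Z) → Set Z, (∀ u, (g u).Countable) →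
      ∃ N : Set Z, Cardinal.mk N ≤ Cardinal.continuum ∧
        (∀ u : ℕ → Z, (∀ n, u n ∈ N) → g u ⊆ N) ∧ StationaryIn N T

/-- Fleissner's Axiom R: a stationary family of countable subsets of `Z` reflects to a member of any
given family `𝒯` of sets of size at most `ℵ₁` which is unbounded and closed under unions of
increasing chains of length `ω₁`. -/
def AxiomR : Prop :=
  ∀ (Z : Type) (T : Set (Set Z)), StationaryIn Set.univ T →
    ∀ 𝒯 : Set (Set Z), (∀ N ∈ 𝒯, Cardinal.mk N ≤ Cardinal.aleph 1) →
      (∀ E : Set Z, Cardinal.mk E ≤ Cardinal.aleph 1 → ∃ N ∈ 𝒯, E ⊆ N) →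
      (∀ N : (Cardinal.aleph.{0} 1).ord.ToType → Set Z, Monotone N → (∀ a, N a ∈ 𝒯) →
        (⋃ a, N a) ∈ 𝒯) →
      ∃ N ∈ 𝒯, StationaryIn N T

/-- If the reflection principle holds, or if the continuum hypothesis and Axiom R hold, then Q1 has a
positive answer. -/
theorem result (h : Reflection ∨ (Cardinal.aleph 1 = (Cardinal.continuum : Cardinal.{0}) ∧ AxiomR)) :
    PositiveAnswer := by
  have hR : V1120.Bandlow.Reflection := by
    rcases h with h | ⟨h1, h2⟩
    · exact h
    · exact V1120.Bandlow.reflection_of_axiomR h1 h2
  intro X _ _ _ hX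
  exact V1120.Bandlow.positive (X := X) hR hX

end Pool.Agent.Results.MP_1c9258_gt.PositiveUnderReflection
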