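import Pool.Agent.V1120.Ladder.Club

/-!
# MP_1c9258_gt: a positive answer implies stationary reflection above the continuum

If every compact space all of whose subsets of size at most continuum have Corson compact closures is
itself Corson compact, then for every regular cardinal `κ > 𝔠` every stationary set of points of
countable cofinality of `κ` reflects at a point of uncountable cofinality.  (Equivalently: a
non-reflecting stationary set of points of countable cofinality of some regular `κ > 𝔠` yields a
counterexample.)
-/

set_option autoImplicit false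

namespace Pool.Agent.Results.MP_1c9258_gt.StationaryReflection

open Set

/-- The positive answer to Q1 (the frozen statement S12847). -/
def PositiveAnswer : Prop :=
  ∀ (X : Type) [TopologicalSpace X] [CompactSpace X] [T2Space X],
    (∀ A : Set X, Cardinal.mk A ≤ Cardinal.continuum →
      ∃ (Γ : Type) (f : ↥(closure A) → (Γ → ℝ)),
        Topology.IsEmbedding f ∧ ∀ x, (Function.support (f x)).Countable) →
    ∃ (Γ : Type) (f : X → (Γ → ℝ)),
      Topology.IsEmbedding f ∧ ∀ x, (Function.support (f x)).Countable

theorem bounded_of_lt {κ : Cardinal.{0}} (hκ : κ.IsRegular) (B : Set κ.ord.ToType)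
    (hB : Cardinal.mk B < κ) : ∃ b, ∀ x ∈ B, x < b := by
  by_contra hcon
  push Not at hcon
  have hcof : IsCofinal B := fun b => by
    obtain ⟨x, hx, hbx⟩ := hcon b
    exact ⟨x, hx, hbx⟩
  have h1 := Order.cof_le hcof
  rw [Ordinal.cof_toType, hκ.cof_ord] at h1
  exact absurd hB (not_lt.2 h1)

/-- A positive answer to Q1 implies that every stationary set of points of countable cofinality in a
regular cardinal `κ > 𝔠` reflects at a point of uncountable cofinality. -/
theorem result (hpos : PositiveAnswer) (κ : Cardinal.{0}) (hκ : κ.IsRegular)
    (hc : Cardinal.continuum < κ) (S : Set κ.ord.ToType)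
    (hω : ∀ a ∈ S, Order.cof (Iio a) = Cardinal.aleph0) (hst : IsStationary S) :
    ∃ δ : κ.ord.ToType, Cardinal.aleph0 < Order.cof (Iio δ) ∧
      IsStationary {x : Iio δ | (x : κ.ord.ToType) ∈ S} := by
  by_contra hcon
  push Not at hcon
  obtain ⟨X, _, _, _, h1, h2⟩ := V1120.Ladder.main hω hst hcon
    (fun B hB => bounded_of_lt hκ B (hB.trans_lt hc))
    (fun G a => bounded_of_lt hκ _ (Cardinal.mk_image_le.trans_lt (Cardinal.mk_Iio_toType_ord_lt a)))
  exact h2 (hpos X h1)

end Pool.Agent.Results.MP_1c9258_gt.StationaryReflection
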